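import Mathlib
import Pool.Graph.R_seed8.Y86.EP.Kum
import Pool.Graph.R_seed8.Y279.EP.Up
import Pool.Graph.R_seed8.Y925.EP.Tower
import Pool.Graph.R_seed8.Y419.EP.Inert
import Pool.Graph.R_seed8.Y469.EP.Max
import Pool.Graph.R_seed8.Y920.ETC.GalH
import Pool.Graph.R_seed8.Y620.ET.Extv
import Pool.Graph.R_seed8.Y37.ET.Max2
import Pool.Agent.H403.Z.Cyc4
import Pool.Agent.H403.Z.Cyc5

set_option autoImplicit false

/-! # MP_600e55_nt: linear growth of the number of generators in cyclic extensions

Let `F` contain a primitive `p`-th root of unity, and let `K` be a finite subextension of the maximal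
`p`-extension `F(p)` of `F` such that `-1 ∈ K*^p` and `K*/K*^p` has at least `p²` elements.  Assume
that one of the following holds:

* some class `c ≠ 1` of `K*/K*^p` is norm-rigid: `N(K(c^(1/p))) = ⟨c⟩ K*^p`;
* for some cyclic extension `E/K` of degree `p^m > 1` all norms from `E` to `K` are `p`-th powers
  in `E`: the norm group of `E/K` has order `p` in `K*/K*^p`;
* `K*/K*^p` is finite and `|E*/E*^p| < p^([E : K] - 1) |K*/K*^p|` for some such `E`.

Then `F` has a valuation ring `O` with `p ∈ O*`, `1 + m ⊆ F*^p` and `O* F*^p ≠ F*`. This implies the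
conclusion of Q1: `G_F(p)` is the decomposition group of a valuation with nontrivial inertia.
So if the conclusion of Q1 fails for `G = G_F(p)` (`p` odd), then `d(V) ≥ d(U) + [U : V] - 1` for all
open subgroups `U`, `V` of `G` such that `V` is normal in `U` and `U/V` is cyclic.

If `-1 ∈ F*^p` and `F*/F*^p` has at least `p²` elements, these conditions are equivalent, with
`K = F` in the first, and if `F*/F*^p` is finite, they are equivalent to the third for `K = F`,
to `|K*/K*^p| = |F*/F*^p|` for one proper finite subextension `K` of `F(p)/F`, and to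
`|K*/K*^p| < [K : F]^(p-1) |F*/F*^p|` for one `K`.

Outline. Let `L = F(θ)`, `θ^p = c`, have degree `p` and generator `σ`. If `c` is norm-rigid then
`L* = ⟨θ⟩ F* L*^p`, and a partition of `L*` into subgroups which respects sums gives a valuation ring
of `L`, which descends to `F`. Let now `E/K` be cyclic of degree `p^m` with generator `σ`, `K'` the
fixed field of `t = σ^(p^(m-1))`, `E = K'(θ)`, `c = θ^p`. Assume that all norms from `E` to `K` are
`p`-th powers in `E`. If `f ∈ K*` is a norm `N(y)` from `E` to `K'` then `σ(y)/y = t(u)/u`, so `y` is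
the product of an element of `K*` and of the first `p^(m-1)` conjugates of `u`, and `f` is a norm
from `E` to `K` up to a `p`-th power of `K*`. The classes of `K'*/K'*^p` which are fixed by `σ` are
represented by the elements of `⟨c⟩ K*`, and `c` is not of the form `σ(w)/w` there because
`N_{K'/K}(c)` is not a `p`-th power. Hence the norms from `E` to `K'`, on whose classes `σ - 1` is
nilpotent, are in `⟨c⟩ K'*^p`: the class `c` of `K'` is norm-rigid. Otherwise `(σ-1)^(p^m-1)`, the
norm, is not zero on `E*/E*^p`, and one counts. -/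

namespace Pool.Agent.Results.MP_600e55_nt.CyclicGrowth

/-- the group of `p`-th powers of `F*` -/
def powers (F : Type) [Field F] (p : ℕ) : Subgroup Fˣ := (powMonoidHom p : Fˣ →* Fˣ).range

open Polynomial in
/-- the norms to `F` of the units of the algebra `F[X]/(X^p - a)`: the norm group of the field
`F(a^(1/p))` if `a` is not a `p`-th power -/
noncomputable def normGroup {F : Type} [Field F] (p : ℕ) (a : Fˣ) : Subgroup Fˣ :=
  (Units.map (Algebra.norm F : AdjoinRoot (X ^ p - C (a : F)) →* F)).range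

/-- `c` is not a `p`-th power, and the norm group of `F(c^(1/p))` is `⟨c⟩ F*^p` -/
def IsNormRigid {F : Type} [Field F] (p : ℕ) (c : Fˣ) : Prop :=
  c ∉ powers F p ∧ normGroup p c = Subgroup.zpowers c ⊔ powers F p

/-- `K` is contained in a finite Galois extension of `F` of `p`-power degree: the finite
subextensions of the maximal `p`-extension -/
def IsFinitePExtension (p : ℕ) {F : Type} [Field F]
    (K : IntermediateField F (AlgebraicClosure F)) : Prop :=
  ∃ L : IntermediateField F (AlgebraicClosure F), K ≤ L ∧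
    FiniteDimensional F L ∧ IsGalois F L ∧ ∃ k : ℕ, Module.finrank F L = p ^ k

/-- `E` is a cyclic Galois extension of `K` of degree `p^m`, `m ≥ 1` -/
structure IsCyclicPExtension (p : ℕ) (K E : Type) [Field K] [Field E] [Algebra K E] : Prop where
  fin : FiniteDimensional K E
  gal : IsGalois K E
  cyc : IsCyclic (E ≃ₐ[K] E)
  deg : ∃ k : ℕ, Module.finrank K E = p ^ (k + 1)

/-- all norms from `E` to `K` are `p`-th powers in `E` -/
def NormsArePowers (p : ℕ) (K E : Type) [Field K] [Field E] [Algebra K E] : Prop :=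
  ∀ u : E, ∃ y : E, algebraMap K E (Algebra.norm K u) = y ^ p

/-- `K` is the compositum of the finite Galois extensions of `F` of `p`-power degree -/
def IsMaximalPExtension (p : ℕ) {F : Type} [Field F]
    (K : IntermediateField F (AlgebraicClosure F)) : Prop :=
  K = sSup {L : IntermediateField F (AlgebraicClosure F) |
    FiniteDimensional F L ∧ IsGalois F L ∧ ∃ k : ℕ, Module.finrank F L = p ^ k}

/-- `H` is the decomposition group in `Gal(K/F)` of a valuation of `K`, and the inertia group is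
not trivial -/
def IsDecompositionGroup {F : Type} [Field F] {K : IntermediateField F (AlgebraicClosure F)}
    (H : Subgroup (↥K ≃ₐ[F] ↥K)) : Prop :=
  ∃ (Γ : Type) (_ : LinearOrderedCommGroupWithZero Γ) (w : Valuation K Γ),
    (∀ σ : ↥K ≃ₐ[F] ↥K, σ ∈ H ↔ ∀ x : ↥K, (w (σ x) ≤ 1 ↔ w x ≤ 1)) ∧
    ∃ σ ∈ H, σ ≠ 1 ∧ ∀ x : ↥K, w x ≤ 1 → w (σ x - x) < 1

/-- `G` is the free pro-`p` product of its subgroups `H i` (for a pro-`p` group `G` and closed
`H i`) -/
def IsFreeProduct (p : ℕ) {G : Type} [Group G] [TopologicalSpace G] {n : ℕ}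
    (H : Fin n → Subgroup G) : Prop :=
  ∀ (P : Type) [Group P] [Finite P], (∃ k : ℕ, Nat.card P = p ^ k) →
    ∀ φ : (i : Fin n) → (H i →* P), (∀ i, IsOpen ((φ i).ker : Set (H i))) →
      ∃! ψ : G →* P, IsOpen (ψ.ker : Set G) ∧ ∀ i, ∀ x : H i, ψ (x : G) = φ i x

/-- the conclusion of Q1: `Gal(K/F)` is the free pro-`p` product of finitely many closed subgroups
of type (i), (ii) or (iii) -/
def ConclusionOfQ1 (p : ℕ) [Fact p.Prime] {F : Type} [Field F]
    (K : IntermediateField F (AlgebraicClosure F)) : Prop :=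
  ∃ (n : ℕ) (H : Fin n → Subgroup (↥K ≃ₐ[F] ↥K)),
    (∀ i, IsClosed (H i : Set (↥K ≃ₐ[F] ↥K))) ∧ IsFreeProduct p H ∧
    ∀ i, Nonempty (H i ≃ₜ* Multiplicative (PadicInt p)) ∨ IsDecompositionGroup (H i) ∨
      (p = 2 ∧ Nat.card (H i) = 2)

/-- `p` is a unit of `O`, `1 + m ⊆ F*^p`, and `O* F*^p ≠ F*` -/
structure IsCompatible {F : Type} [Field F] (p : ℕ) (O : ValuationSubring F) : Prop where
  inv_mem : (p : F)⁻¹ ∈ O
  one_add : ∀ x : F, x ∈ O → x⁻¹ ∉ O → ∃ y : F, y ^ p = 1 + x
  ne_top : O.unitGroup ⊔ powers F p ≠ ⊤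

/-- `-1` is a `p`-th power in `K`, `K*/K*^p` has at least `p²` elements, and (1) `K` has a
norm-rigid class, or (2) all norms from some cyclic extension `E` of `K` of degree `p^m`, `m ≥ 1`,
are `p`-th powers in `E`, or (3) `K*/K*^p` is finite and
`|E*/E*^p| < p^([E : K] - 1) |K*/K*^p|` for some such `E` -/
def SmallNorms (p : ℕ) (K : Type) [Field K] : Prop :=
  (-1 : Kˣ) ∈ powers K p ∧ (powers K p).index ≠ 1 ∧ (powers K p).index ≠ p ∧
    ((∃ c : Kˣ, IsNormRigid p c) ∨
     (∃ (E : Type) (_ : Field E) (_ : Algebra K E), IsCyclicPExtension p K E ∧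
       NormsArePowers p K E) ∨
     ((powers K p).index ≠ 0 ∧
       ∃ (E : Type) (_ : Field E) (_ : Algebra K E), IsCyclicPExtension p K E ∧
         (powers E p).index < p ^ (Module.finrank K E - 1) * (powers K p).index))

theorem good_of_small {p : ℕ} [Fact p.Prime] {K : Type} [Field K]
    (hζ : ∃ ζ : K, IsPrimitiveRoot ζ p) (h : SmallNorms p K) : Pool.Agent.H403.Z.Good K p := by
  have hprime : p.Prime := Fact.out
  obtain ⟨hneg, h1, hp, h⟩ := h
  have hbig : Pool.Agent.H403.Z.Big K p := ⟨h1, hp⟩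
  rcases h with ⟨c, hc, hc'⟩ | ⟨E, _, _, ⟨hE1, hE2, hE3, k, hk⟩, hE5⟩ |
    ⟨hK0, E, _, _, ⟨hE1, hE2, hE3, k, hk⟩, hlt⟩
  · exact Pool.Agent.H403.Z.good_of_rigid hζ hneg hbig hc hc'.le
  · obtain ⟨σ, hσ⟩ := hE3.exists_generator
    refine Pool.Agent.H403.Z.good_of_cyc (r := k) hζ hneg hbig hσ
      (by rw [hk, pow_succ]) fun u => ?_
    obtain ⟨y, hy⟩ := hE5 u
    have hN0 : algebraMap K E (Algebra.norm K (u : E)) ≠ 0 :=
      (_root_.map_ne_zero _).2 (Algebra.norm_ne_zero_iff.2 u.ne_zero)
    have hy0 : y ≠ 0 := by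
      rintro rfl
      rw [zero_pow hprime.ne_zero] at hy
      exact hN0 hy
    exact ⟨Units.mk0 y hy0, Units.ext hy⟩
  · obtain ⟨σ, hσ⟩ := hE3.exists_generator
    have hk' : Module.finrank K E = p ^ k * p := by rw [hk, pow_succ]
    rcases Pool.Agent.H403.Z.growth_cyc (r := k) hζ hneg hbig hσ hk' hK0 with h8 | h8
    · exact h8
    · rw [hk'] at hlt
      exact absurd hlt (not_lt.2 h8)

theorem result (p : ℕ) [Fact p.Prime] (F : Type) [Field F] (hζ : ∃ ζ : F, IsPrimitiveRoot ζ p) :
    -- small norm groups or slow growth give a valuation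
    ((∃ K : IntermediateField F (AlgebraicClosure F), IsFinitePExtension p K ∧ SmallNorms p K) →
      ∃ O : ValuationSubring F, IsCompatible p O) ∧
    -- and conversely
    ((-1 : Fˣ) ∈ powers F p → (powers F p).index ≠ 1 → (powers F p).index ≠ p →
      List.TFAE
        [∃ O : ValuationSubring F, IsCompatible p O,
         ∃ c : Fˣ, IsNormRigid p c,
         ∃ K : IntermediateField F (AlgebraicClosure F), IsFinitePExtension p K ∧
           SmallNorms p K] ∧
      ((powers F p).index ≠ 0 → List.TFAE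
        [∃ O : ValuationSubring F, IsCompatible p O,
         ∃ (E : Type) (_ : Field E) (_ : Algebra F E), IsCyclicPExtension p F E ∧
           (powers E p).index < p ^ (Module.finrank F E - 1) * (powers F p).index,
         ∃ K : IntermediateField F (AlgebraicClosure F), IsFinitePExtension p K ∧ K ≠ ⊥ ∧
           (powers K p).index = (powers F p).index,
         ∃ K : IntermediateField F (AlgebraicClosure F), IsFinitePExtension p K ∧
           (powers K p).index < Module.finrank F K ^ (p - 1) * (powers F p).index])) ∧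
    -- the Galois group
    ((∃ O : ValuationSubring F, IsCompatible p O) →
      ∀ K : IntermediateField F (AlgebraicClosure F), IsMaximalPExtension p K →
        IsDecompositionGroup (⊤ : Subgroup (↥K ≃ₐ[F] ↥K)) ∧ ConclusionOfQ1 p K) := by
  have hprime : p.Prime := Fact.out
  have hpF : (p : F) ≠ 0 := by
    obtain ⟨ζ, hζ⟩ := hζ
    have : NeZero p := ⟨hprime.ne_zero⟩
    exact hζ.neZero'.ne
  have hgood : (∃ O : ValuationSubring F, IsCompatible p O) ↔ Pool.Agent.H403.Z.Good F p := by
    constructor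
    · rintro ⟨O, hO⟩
      exact ⟨O, ⟨hO.inv_mem, hpF, hO.one_add⟩, hO.ne_top⟩
    · rintro ⟨O, hO, hne⟩
      exact ⟨O, hO.1, hO.2.2, hne⟩
  refine ⟨?_, fun hneg h1 hp => ?_, fun hex K hK => ?_⟩
  · rintro ⟨K, ⟨L, hKL, hfd, hgal, k, hk⟩, hK⟩
    let e := IntermediateField.restrictAlgEquiv hKL
    obtain ⟨ht1, -⟩ := Pool.Agent.H403.Z.tower0 hk hζ _ (IntermediateField.restrict hKL) rfl
    have hζK : ∃ ζ : K, IsPrimitiveRoot ζ p := by
      obtain ⟨ζ, hζ⟩ := hζ
      exact ⟨_, hζ.map_of_injective (algebraMap F K).injective⟩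
    exact hgood.2 (ht1 (Pool.Agent.H403.Z.good_iso e.toRingEquiv (good_of_small hζK hK)))
  · have hbig : Pool.Agent.H403.Z.Big F p := ⟨h1, hp⟩
    -- passing to `IntermediateField F L`
    have htow : ∀ K : IntermediateField F (AlgebraicClosure F), IsFinitePExtension p K →
        (∃ ζ : K, IsPrimitiveRoot ζ p) ∧ (-1 : Kˣ) ∈ powers K p ∧ Pool.Agent.H403.Z.Big K p ∧
        (Pool.Agent.H403.Z.Good K p → Pool.Agent.H403.Z.Good F p) ∧
        ((powers F p).index ≠ 0 → Pool.Agent.H403.Z.Good F p ∨
          Module.finrank F K ^ (p - 1) * (powers F p).index ≤ (powers K p).index) := by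
      rintro K ⟨L, hKL, hfd, hgal, k, hk⟩
      let e := IntermediateField.restrictAlgEquiv hKL
      obtain ⟨h2, h3, h4⟩ := Pool.Agent.H403.Z.tower hk hζ hneg _
        (IntermediateField.restrict hKL) rfl
      have he : Module.finrank F (IntermediateField.restrict hKL) = Module.finrank F K :=
        e.toLinearEquiv.finrank_eq.symm
      have hi : (powers (IntermediateField.restrict hKL) p).index = (powers K p).index :=
        (Pool.Agent.H403.Z.index_iso e.toRingEquiv).symm
      refine ⟨?_, ?_, ?_, ?_, ?_⟩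
      · obtain ⟨ζ, hζ⟩ := hζ
        exact ⟨_, hζ.map_of_injective (algebraMap F K).injective⟩
      · obtain ⟨i, hi⟩ := hneg
        refine ⟨Units.map (algebraMap F K : F →* K) i, ?_⟩
        have hi' : i ^ p = -1 := hi
        change (Units.map (algebraMap F K : F →* K) i) ^ p = -1
        rw [← map_pow, hi']
        ext
        simp
      · have h5 := h3 hbig
        exact ⟨fun h6 => h5.1 (hi.trans h6), fun h6 => h5.2 (hi.trans h6)⟩
      · exact fun h => h2 (Pool.Agent.H403.Z.good_iso e.toRingEquiv h)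
      · intro h
        rcases h4 hbig h with h5 | ⟨-, h5⟩
        · exact Or.inl h5
        · right
          rw [he] at h5
          exact h5.trans hi.le
    have hbot : IsFinitePExtension p (⊥ : IntermediateField F (AlgebraicClosure F)) :=
      ⟨⊥, le_rfl, inferInstance, inferInstance, 0, by rw [IntermediateField.finrank_bot, pow_zero]⟩
    have hrig : ∀ (K : Type) [Field K], (∃ ζ : K, IsPrimitiveRoot ζ p) → (-1 : Kˣ) ∈ powers K p →
        Pool.Agent.H403.Z.Big K p → (∃ c : Kˣ, IsNormRigid p c) → Pool.Agent.H403.Z.Good K p := by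
      intro K _ h2 h3 h4 ⟨c, hc, hc'⟩
      exact Pool.Agent.H403.Z.good_of_rigid h2 h3 h4 hc hc'.le
    have hex4 : Pool.Agent.H403.Z.Good F p → ∃ (E : Type) (_ : Field E) (_ : Algebra F E),
        IsCyclicPExtension p F E ∧ Module.finrank F E = p ∧
        ((powers F p).index ≠ 0 → (powers E p).index = (powers F p).index) := by
      intro h
      obtain ⟨c, hc, hc'⟩ := Pool.Agent.H403.Z.rigid_of_good hζ hneg h
      obtain ⟨E, hE1, hE2, hfd, hgal, hcyc, hdeg, -, hidx⟩ :=
        Pool.Agent.H403.Z.exists_cyc hζ hneg hc hc'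
      exact ⟨E, hE1, hE2, ⟨hfd, hgal, hcyc, 0, by rw [hdeg, zero_add, pow_one]⟩, hdeg, hidx⟩
    have hsmall : (∃ K : IntermediateField F (AlgebraicClosure F), IsFinitePExtension p K ∧
        SmallNorms p K) → ∃ O : ValuationSubring F, IsCompatible p O := by
      rintro ⟨K, hK, hsm⟩
      obtain ⟨h2, h3, h4, h5, -⟩ := htow K hK
      exact hgood.2 (h5 (good_of_small h2 hsm))
    refine ⟨?_, fun hfin => ?_⟩
    · tfae_have 1 → 2 := by
        intro h
        obtain ⟨c, hc, hc'⟩ := Pool.Agent.H403.Z.rigid_of_good hζ hneg (hgood.1 h)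
        refine ⟨c, hc, le_antisymm hc' (sup_le ?_ ?_)⟩
        · rw [Subgroup.zpowers_le]
          exact Pool.Agent.H403.Z.self_mem_nmG hprime.pos hneg c
        · exact Pool.Agent.H403.Z.pwG_le_nmG hprime.pos c
      tfae_have 2 → 1 := fun h => hgood.2 (hrig F hζ hneg hbig h)
      tfae_have 1 → 3 := by
        intro h
        obtain ⟨h2, h3, h4, -, -⟩ := htow ⊥ hbot
        have h5 : Pool.Agent.H403.Z.Good (⊥ : IntermediateField F (AlgebraicClosure F)) p :=
          Pool.Agent.H403.Z.good_iso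
            (IntermediateField.botEquiv F (AlgebraicClosure F)).symm.toRingEquiv (hgood.1 h)
        obtain ⟨c, hc, hc'⟩ := Pool.Agent.H403.Z.rigid_of_good h2 h3 h5
        refine ⟨⊥, hbot, h3, h4.1, h4.2, Or.inl ⟨c, hc, le_antisymm hc' (sup_le ?_ ?_)⟩⟩
        · rw [Subgroup.zpowers_le]
          exact Pool.Agent.H403.Z.self_mem_nmG hprime.pos h3 c
        · exact Pool.Agent.H403.Z.pwG_le_nmG hprime.pos c
      tfae_have 3 → 1 := hsmall
      tfae_finish
    · tfae_have 1 → 3 := by
        intro h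
        obtain ⟨c, hc, hc'⟩ := Pool.Agent.H403.Z.rigid_of_good hζ hneg (hgood.1 h)
        obtain ⟨K, hfd, hgal, hdeg, hidx⟩ := Pool.Agent.H403.Z.exists_ext hζ hneg hfin hc hc'
        refine ⟨K, ⟨K, le_rfl, hfd, hgal, 1, by rw [hdeg, pow_one]⟩, ?_, hidx⟩
        rintro rfl
        rw [IntermediateField.finrank_bot] at hdeg
        exact hprime.one_lt.ne hdeg
      tfae_have 3 → 4 := by
        rintro ⟨K, hK, hne, hidx⟩
        refine ⟨K, hK, ?_⟩
        rw [hidx]
        obtain ⟨L, hKL, hfd, -⟩ := hK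
        have hfK : FiniteDimensional F K := Module.Finite.of_injective
          (IntermediateField.inclusion hKL).toLinearMap (IntermediateField.inclusion hKL).injective
        have h2 : 1 < Module.finrank F K := by
          have h3 : 0 < Module.finrank F K := Module.finrank_pos
          have h4 : Module.finrank F K ≠ 1 := fun h =>
            hne (IntermediateField.finrank_eq_one_iff.1 h)
          omega
        have h3 : 1 < Module.finrank F K ^ (p - 1) :=
          Nat.one_lt_pow (by have := hprime.two_le; omega) h2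
        have h4 : 0 < (powers F p).index := Nat.pos_of_ne_zero hfin
        exact lt_mul_left h4 h3
      tfae_have 4 → 1 := by
        rintro ⟨K, hK, hlt⟩
        obtain ⟨-, -, -, -, h5⟩ := htow K hK
        rcases h5 hfin with h6 | h6
        · exact hgood.2 h6
        · exact absurd hlt (not_lt.2 h6)
      tfae_have 1 → 2 := by
        intro h
        obtain ⟨E, hE1, hE2, hcyc, hdeg, hidx⟩ := hex4 (hgood.1 h)
        refine ⟨E, hE1, hE2, hcyc, ?_⟩
        rw [hidx hfin, hdeg]
        exact lt_mul_left (Nat.pos_of_ne_zero hfin)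
          (Nat.one_lt_pow (by have := hprime.two_le; omega) hprime.one_lt)
      tfae_have 2 → 1 := by
        rintro ⟨E, hE1, hE2, hcyc, hlt⟩
        exact hgood.2 (good_of_small hζ ⟨hneg, h1, hp, Or.inr (Or.inr ⟨hfin, E, hE1, hE2, hcyc, hlt⟩)⟩)
      tfae_finish
  · obtain ⟨O, hO⟩ := hex
    obtain ⟨c, hc⟩ : ∃ c : Fˣ, c ∉ O.unitGroup ⊔ powers F p := by
      by_contra hc
      push Not at hc
      exact hO.ne_top (eq_top_iff.2 fun c _ => hc c)
    by_cases hp2 : p = 2
    · subst hp2
      have h2 : (2 : F) ≠ 0 := by exact_mod_cast hpF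
      have hS : Pool.Agent.Y920.ETC.Sqr O := ⟨by exact_mod_cast hO.inv_mem, h2, fun x hx hx' => by
        obtain ⟨y, hy⟩ := hO.one_add x hx hx'
        exact ⟨y, by rw [← hy, pow_two]⟩⟩
      have hD : Pool.Agent.Y920.ETC.DecInert F K :=
        Pool.Agent.Y920.ETC.decInert Pool.Agent.Y620.ET.t_EXTV Pool.Agent.Y37.ET.t_MAX2 F h2 O hS
          ⟨c, ?_⟩ K hK
      · obtain ⟨n, H, hcl, hfree, hty⟩ := Pool.Agent.Y920.ETC.efratTwo F K hD
        refine ⟨?_, n, H, hcl, fun P _ _ hP φ hφ => hfree P hP φ hφ, fun i => ?_⟩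
        · obtain ⟨Γ, hΓ, w, hw, σ, hσ, hσw⟩ := hD
          exact ⟨Γ, hΓ, w, fun τ => ⟨fun _ x => hw τ x, fun _ => trivial⟩, σ, trivial, hσ, hσw⟩
        · rcases hty i with h | h | h
          · exact Or.inl h
          · exact Or.inr (Or.inl h)
          · exact Or.inr (Or.inr ⟨rfl, h.2⟩)
      · rintro f ⟨h6, h7⟩
        apply hc
        have h8 : c * f ^ 2 ∈ O.unitGroup :=
          Pool.Agent.E8helper26.ETC.val_eq_one_of h6 (by rwa [← Units.val_inv_eq_inv_val])
        have h9 : f ^ 2 ∈ powers F 2 := ⟨f, rfl⟩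
        have h10 := mul_mem (show c * f ^ 2 ∈ O.unitGroup ⊔ powers F 2 from
          Subgroup.mem_sup_left h8)
          (inv_mem (show f ^ 2 ∈ O.unitGroup ⊔ powers F 2 from Subgroup.mem_sup_right h9))
        rwa [mul_inv_cancel_right] at h10
    · have hG : Pool.Agent.Y920.EP.AllG := ⟨Pool.Agent.Y86.EP.t_KUM, Pool.Agent.Y279.EP.t_UP,
        Pool.Agent.Y925.EP.t_TOWER', Pool.Agent.Y419.EP.t_INERT', Pool.Agent.Y469.EP.t_MAX'⟩
      have hD : Pool.Agent.Y920.EP.DecInert F K := Pool.Agent.Y920.EP.decInert hG p hprime hp2 F hζ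
        O ⟨hO.inv_mem, hpF, hO.one_add⟩ ⟨c, ?_⟩ K hK
      · refine ⟨?_, Pool.Agent.Y920.EP.efratP p F K hD⟩
        obtain ⟨Γ, hΓ, w, hw, σ, hσ, hσw⟩ := hD
        exact ⟨Γ, hΓ, w, fun τ => ⟨fun _ x => hw τ x, fun _ => trivial⟩, σ, trivial, hσ, hσw⟩
      · rintro f ⟨h6, h7⟩
        apply hc
        have h8 : c * f ^ p ∈ O.unitGroup := Pool.Agent.R675.TP.mem_unitGroup_of h6 h7
        have h9 : f ^ p ∈ powers F p := ⟨f, rfl⟩
        have h10 := mul_mem (show c * f ^ p ∈ O.unitGroup ⊔ powers F p from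
          Subgroup.mem_sup_left h8)
          (inv_mem (show f ^ p ∈ O.unitGroup ⊔ powers F p from Subgroup.mem_sup_right h9))
        rwa [mul_inv_cancel_right] at h10

end Pool.Agent.Results.MP_600e55_nt.CyclicGrowth
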