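import Mathlib
import Pool.Agent.H403.Z.Pow3
import Pool.Agent.Results.MP_600e55_nt.CyclicGrowth

set_option autoImplicit false

/-! # MP_600e55_nt: a power law for the number of generators of open subgroups

Let `F` contain a primitive `p`-th root of unity, let `F*/F*^p` be finite, and let
`d(K) = dim K*/K*^p` for finite subextensions `K` of the maximal `p`-extension `F(p)`, the number of
generators of the open subgroup `G_K(p)` of `G_F(p)`. Assume that the conclusion of Q1 does not hold
for `F` by way of a valuation, that is, `F` has no valuation ring `O` with `p ∈ O*`, `1 + m ⊆ F*^p` and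
`O* F*^p ≠ F*`.  Then for all `m` there is `K` of degree `p^m` over `F` with

* `d(K) - 7 ≥ (3/2)^m (d(F) - 7)` if `p = 2` and `d(F) > 7`,
* `d(K) - 9 ≥ ((p+3)/4)^m (d(F) - 9)` if `p` is odd and `d(F) > 9`.

So Q1 holds for `F` if for one `m` all open subgroups `U` of index `p^m` of `G = G_F(p)` satisfy
`d(U) - 7 < (3/2)^m (d(G) - 7)` (`p = 2`), `d(U) - 9 < ((p+3)/4)^m (d(G) - 9)` (`p` odd).

Outline. If `p = 2` and all norm groups of quadratic extensions have at most `N` classes while
`|F*/F*²| > 32 N²`, then there is a valuation ring as above (`QuadraticBoundH26` of the library). So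
without a valuation some class `a` has a norm group `N_a` of dimension `≥ (d(F) - 5)/2`. As
`d(F(√a)) = d(F) + dim N_a - 1`, one gets `d(F(√a)) - 7 ≥ (3/2) (d(F) - 7)`. For odd `p` the
analogous statement is derived from `FewValues` of the library, and
`d(F(a^(1/p))) ≥ d(F) + (p-1)(dim N_a - 1)` by the counting argument of `CyclicGrowth`. A valuation
ring as above descends from `F(a^(1/p))` to `F`, so one can iterate. -/

namespace Pool.Agent.Results.MP_600e55_nt.PowerGrowth

open Pool.Agent.Results.MP_600e55_nt.CyclicGrowth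

/-- the dimension of `K*/K*^p` over `Z/p` if this group is finite: the logarithm of its order -/
noncomputable def dimension (p : ℕ) (K : Type) [Field K] : ℕ := Nat.log p (powers K p).index

/-- `F` has a valuation ring `O` with `p ∈ O*`, `1 + m ⊆ F*^p`, `O* F*^p ≠ F*`, the group `G_F(p)` is
the decomposition group of a valuation of `F(p)` with nontrivial inertia group, and the conclusion
of Q1 holds -/
def IsValued (p : ℕ) [Fact p.Prime] (F : Type) [Field F] : Prop :=
  (∃ O : ValuationSubring F, IsCompatible p O) ∧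
    ∀ K : IntermediateField F (AlgebraicClosure F), IsMaximalPExtension p K →
      IsDecompositionGroup (⊤ : Subgroup (↥K ≃ₐ[F] ↥K)) ∧ ConclusionOfQ1 p K

theorem main {p a b c : ℕ} [Fact p.Prime] (ha : 0 < a) (hab : a ≤ b)
    (hs : Pool.Agent.H403.Z.Step p a b c) (F : Type) [Field F]
    (hζ : ∃ ζ : F, IsPrimitiveRoot ζ p) (hfin : (powers F p).index ≠ 0)
    (hd : c < dimension p F) :
    IsValued p F ∨ ∀ m : ℕ, ∃ K : IntermediateField F (AlgebraicClosure F),
      IsFinitePExtension p K ∧ Module.finrank F K = p ^ m ∧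
        b ^ m * dimension p F + c * a ^ m ≤ a ^ m * dimension p K + c * b ^ m := by
  have hprime : p.Prime := Fact.out
  have hpF : (p : F) ≠ 0 := by
    obtain ⟨ζ, hζ⟩ := hζ
    have : NeZero p := ⟨hprime.ne_zero⟩
    exact hζ.neZero'.ne
  by_cases hgood : Pool.Agent.H403.Z.Good F p
  · left
    obtain ⟨O, hO, hne⟩ := hgood
    have hex : ∃ O : ValuationSubring F, IsCompatible p O := ⟨O, hO.1, hO.2.2, hne⟩
    exact ⟨hex, (Pool.Agent.Results.MP_600e55_nt.CyclicGrowth.result p F hζ).2.2 hex⟩
  · right
    intro m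
    obtain ⟨ζ, hζ'⟩ := hζ
    have hM := Pool.Agent.H403.W.maxPExt_maxP p F hprime hζ'
    have hX : Pool.Agent.H403.Z.PX p F (Pool.Agent.H403.W.maxPExt p F) :=
      ⟨hM.gal, fun E hfd hgal => (Pool.Agent.H403.Z.PS_of_maxP hM E).2.2⟩
    obtain ⟨K', hfd, hdeg, hgr⟩ := Pool.Agent.H403.Z.pow_growth ha hab hs m F
      (Pool.Agent.H403.W.maxPExt p F) hX hM.root ⟨ζ, hζ'⟩ hgood hfin hd
    obtain ⟨N, hN, hfdN, hgalN, k, hk⟩ := hX.closure K'
    refine ⟨IntermediateField.lift K', ⟨IntermediateField.lift N, ?_, ?_, ?_, k, ?_⟩, ?_, ?_⟩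
    · rintro x hx
      obtain ⟨y, hy, rfl⟩ := hx
      exact ⟨y, hN hy, rfl⟩
    · exact Module.Finite.equiv (IntermediateField.liftAlgEquiv N).toLinearEquiv
    · exact IsGalois.of_algEquiv (IntermediateField.liftAlgEquiv N)
    · rw [← (IntermediateField.liftAlgEquiv N).toLinearEquiv.finrank_eq, hk]
    · rw [← (IntermediateField.liftAlgEquiv K').toLinearEquiv.finrank_eq, hdeg]
    · have h1 : dimension p (IntermediateField.lift K') = Pool.Agent.H403.Z.dd p K' :=
        (Pool.Agent.H403.Z.dd_iso (IntermediateField.liftAlgEquiv K').toRingEquiv).symm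
      rw [h1]
      exact hgr

theorem result (p : ℕ) [Fact p.Prime] (F : Type) [Field F] (hζ : ∃ ζ : F, IsPrimitiveRoot ζ p)
    (hfin : (powers F p).index ≠ 0) :
    -- `p = 2`
    (p = 2 → 7 < dimension p F →
      IsValued p F ∨ ∀ m : ℕ, ∃ K : IntermediateField F (AlgebraicClosure F),
        IsFinitePExtension p K ∧ Module.finrank F K = 2 ^ m ∧
          3 ^ m * dimension p F + 7 * 2 ^ m ≤ 2 ^ m * dimension p K + 7 * 3 ^ m) ∧
    -- `p` odd
    (p ≠ 2 → 9 < dimension p F →
      IsValued p F ∨ ∀ m : ℕ, ∃ K : IntermediateField F (AlgebraicClosure F),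
        IsFinitePExtension p K ∧ Module.finrank F K = p ^ m ∧
          (p + 3) ^ m * dimension p F + 9 * 4 ^ m ≤ 4 ^ m * dimension p K + 9 * (p + 3) ^ m) := by
  have hprime : p.Prime := Fact.out
  refine ⟨?_, fun hp2 hd => ?_⟩
  · rintro rfl hd
    exact main (by norm_num) (by norm_num) Pool.Agent.H403.Z.step_two F hζ hfin hd
  · exact main (by norm_num) (by have := hprime.two_le; omega)
      (Pool.Agent.H403.Z.step_odd hp2) F hζ hfin hd

end Pool.Agent.Results.MP_600e55_nt.PowerGrowth
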