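import Mathlib
import Pool.Graph.R_seed8.Y86.EP.Kum
import Pool.Graph.R_seed8.Y279.EP.Up
import Pool.Graph.R_seed8.Y925.EP.Tower
import Pool.Graph.R_seed8.Y419.EP.Inert
import Pool.Graph.R_seed8.Y469.EP.Max
import Pool.Graph.R_seed8.Y920.ETC.GalH
import Pool.Graph.R_seed8.Y620.ET.Extv
import Pool.Graph.R_seed8.Y37.ET.Max2
import Pool.Agent.H403.Z.Res6

set_option autoImplicit false

/-! # MP_600e55_nt: finitely generated subnormal subgroups of maximal pro-`p` Galois groups

Let `F` be a field with a primitive `p`-th root of unity, `p` any prime, and `G = G_F(p)`.  Let `N` be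
a closed subnormal subgroup of `G` which is topologically finitely generated, not trivial and of
infinite index.  Then:

* `G` is the decomposition group of a valuation ring `V` of `F(p)`, `p ∈ V*`, whose inertia group `T` is
  not trivial, and the conclusion of Q1 holds for `F`;
* `T` is abelian, and `N ≤ T` or `N T` has finite index in `G`.

So if `N` is normal, then `N` is abelian or `G/N` is virtually abelian.  If the Galois group of
`F(p)/F(μ_{p^∞})` has infinite index in `G` and is finitely generated, then it is abelian.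

Outline.  Let `N` be normal and `K` the fixed field of `N`, put `V_E = E*/E*^p`, and let `-1 ∈ F*^p`.
The space `V_K` is finite and not zero.  After a finite extension `V_F → V_K` is surjective.  Let `E`
be a finite subextension of `K/F` and `A` the kernel of `V_E → V_K`.  Let `a ∈ A`, `a ≠ 1`.  For `y` in
`L = E(a^(1/p)) ⊆ K`, the image of `y` in `V_K` is the image of some element of `E`, so is fixed by
`Gal(L/E)`, and the norm of `y` is a `p`-th power in `K`.  So `N(L*) ⊆ A`.  By symmetry of the norm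
symbol, no `x ∉ A` has a norm from `E(x^(1/p))` in `A`, except `1`.  If `E` has no norm-rigid class
(see `GeneratorGap`), then the action of the generator of `Gal(E(x^(1/p))/E)` gives an injection
of `A` into `V_K`.  So `dim V_E ≤ 2 dim V_K` for all `E`, in contradiction to the growth of `V_E`
in fields without norm-rigid classes.  The case `p = 2`, `-1 ∉ F*²` is reduced to `F(i)`; if `K(i)` is
quadratically closed then `K` is euclidean, and `N` is a normal subgroup of order 2.  For subnormal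
subgroups one descends along the series: a field with a compatible valuation ring has a canonical
one, which is stable under all automorphisms.  Finally one takes a minimal compatible valuation
ring of `F`; the residue field has no compatible valuation ring, so the image of `N` in its Galois
group is trivial or open. -/

namespace Pool.Agent.Results.MP_600e55_nt.SubnormalSubgroups

/-- the group of `p`-th powers of `F*` -/
def powers (F : Type) [Field F] (p : ℕ) : Subgroup Fˣ := (powMonoidHom p : Fˣ →* Fˣ).range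

/-- `K` is the compositum of the finite Galois extensions of `F` of `p`-power degree -/
def IsMaximalPExtension (p : ℕ) {F : Type} [Field F]
    (K : IntermediateField F (AlgebraicClosure F)) : Prop :=
  K = sSup {L : IntermediateField F (AlgebraicClosure F) |
    FiniteDimensional F L ∧ IsGalois F L ∧ ∃ k : ℕ, Module.finrank F L = p ^ k}

/-- `H` is the decomposition group in `Gal(K/F)` of a valuation of `K`, and the inertia group is
not trivial -/
def IsDecompositionGroup {F : Type} [Field F] {K : IntermediateField F (AlgebraicClosure F)}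
    (H : Subgroup (↥K ≃ₐ[F] ↥K)) : Prop :=
  ∃ (Γ : Type) (_ : LinearOrderedCommGroupWithZero Γ) (w : Valuation K Γ),
    (∀ σ : ↥K ≃ₐ[F] ↥K, σ ∈ H ↔ ∀ x : ↥K, (w (σ x) ≤ 1 ↔ w x ≤ 1)) ∧
    ∃ σ ∈ H, σ ≠ 1 ∧ ∀ x : ↥K, w x ≤ 1 → w (σ x - x) < 1

/-- `G` is the free pro-`p` product of its subgroups `H i` (for a pro-`p` group `G` and closed
`H i`) -/
def IsFreeProduct (p : ℕ) {G : Type} [Group G] [TopologicalSpace G] {n : ℕ}
    (H : Fin n → Subgroup G) : Prop :=
  ∀ (P : Type) [Group P] [Finite P], (∃ k : ℕ, Nat.card P = p ^ k) →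
    ∀ φ : (i : Fin n) → (H i →* P), (∀ i, IsOpen ((φ i).ker : Set (H i))) →
      ∃! ψ : G →* P, IsOpen (ψ.ker : Set G) ∧ ∀ i, ∀ x : H i, ψ (x : G) = φ i x

/-- the conclusion of Q1: `Gal(K/F)` is the free pro-`p` product of finitely many closed subgroups
of type (i), (ii) or (iii) -/
def ConclusionOfQ1 (p : ℕ) [Fact p.Prime] {F : Type} [Field F]
    (K : IntermediateField F (AlgebraicClosure F)) : Prop :=
  ∃ (n : ℕ) (H : Fin n → Subgroup (↥K ≃ₐ[F] ↥K)),
    (∀ i, IsClosed (H i : Set (↥K ≃ₐ[F] ↥K))) ∧ IsFreeProduct p H ∧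
    ∀ i, Nonempty (H i ≃ₜ* Multiplicative (PadicInt p)) ∨ IsDecompositionGroup (H i) ∨
      (p = 2 ∧ Nat.card (H i) = 2)

/-- `p` is a unit of `O`, `1 + m ⊆ F*^p`, and `O* F*^p ≠ F*` -/
structure IsCompatible {F : Type} [Field F] (p : ℕ) (O : ValuationSubring F) : Prop where
  inv_mem : (p : F)⁻¹ ∈ O
  one_add : ∀ x : F, x ∈ O → x⁻¹ ∉ O → ∃ y : F, y ^ p = 1 + x
  ne_top : O.unitGroup ⊔ powers F p ≠ ⊤

/-- known: `G_F(p)` is a decomposition group if `F` has a compatible valuation ring -/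
theorem galois_of_compatible (p : ℕ) [Fact p.Prime] (F : Type) [Field F]
    (hζ : ∃ ζ : F, IsPrimitiveRoot ζ p) (hex : ∃ O : ValuationSubring F, IsCompatible p O)
    (K : IntermediateField F (AlgebraicClosure F)) (hK : IsMaximalPExtension p K) :
    IsDecompositionGroup (⊤ : Subgroup (↥K ≃ₐ[F] ↥K)) ∧ ConclusionOfQ1 p K := by
  have hprime : p.Prime := Fact.out
  have hpF : (p : F) ≠ 0 := by
    obtain ⟨ζ, hζ⟩ := hζ
    have : NeZero p := ⟨hprime.ne_zero⟩
    exact hζ.neZero'.ne
  obtain ⟨O, hO⟩ := hex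
  obtain ⟨c, hc⟩ : ∃ c : Fˣ, c ∉ O.unitGroup ⊔ powers F p := by
    by_contra hc
    push Not at hc
    exact hO.ne_top (eq_top_iff.2 fun c _ => hc c)
  by_cases hp2 : p = 2
  · subst hp2
    have h2 : (2 : F) ≠ 0 := by exact_mod_cast hpF
    have hS : Pool.Agent.Y920.ETC.Sqr O := ⟨by exact_mod_cast hO.inv_mem, h2, fun x hx hx' => by
      obtain ⟨y, hy⟩ := hO.one_add x hx hx'
      exact ⟨y, by rw [← hy, pow_two]⟩⟩
    have hD : Pool.Agent.Y920.ETC.DecInert F K :=
      Pool.Agent.Y920.ETC.decInert Pool.Agent.Y620.ET.t_EXTV Pool.Agent.Y37.ET.t_MAX2 F h2 O hS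
        ⟨c, ?_⟩ K hK
    · obtain ⟨n, H, hcl, hfree, hty⟩ := Pool.Agent.Y920.ETC.efratTwo F K hD
      refine ⟨?_, n, H, hcl, fun P _ _ hP φ hφ => hfree P hP φ hφ, fun i => ?_⟩
      · obtain ⟨Γ, hΓ, w, hw, σ, hσ, hσw⟩ := hD
        exact ⟨Γ, hΓ, w, fun τ => ⟨fun _ x => hw τ x, fun _ => trivial⟩, σ, trivial, hσ, hσw⟩
      · rcases hty i with h | h | h
        · exact Or.inl h
        · exact Or.inr (Or.inl h)
        · exact Or.inr (Or.inr ⟨rfl, h.2⟩)
    · rintro f ⟨h6, h7⟩
      apply hc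
      have h8 : c * f ^ 2 ∈ O.unitGroup :=
        Pool.Agent.E8helper26.ETC.val_eq_one_of h6 (by rwa [← Units.val_inv_eq_inv_val])
      have h9 : f ^ 2 ∈ powers F 2 := ⟨f, rfl⟩
      have h10 := mul_mem (show c * f ^ 2 ∈ O.unitGroup ⊔ powers F 2 from
        Subgroup.mem_sup_left h8)
        (inv_mem (show f ^ 2 ∈ O.unitGroup ⊔ powers F 2 from Subgroup.mem_sup_right h9))
      rwa [mul_inv_cancel_right] at h10
  · have hG : Pool.Agent.Y920.EP.AllG := ⟨Pool.Agent.Y86.EP.t_KUM, Pool.Agent.Y279.EP.t_UP,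
      Pool.Agent.Y925.EP.t_TOWER', Pool.Agent.Y419.EP.t_INERT', Pool.Agent.Y469.EP.t_MAX'⟩
    have hD : Pool.Agent.Y920.EP.DecInert F K := Pool.Agent.Y920.EP.decInert hG p hprime hp2 F hζ
      O ⟨hO.inv_mem, hpF, hO.one_add⟩ ⟨c, ?_⟩ K hK
    · refine ⟨?_, Pool.Agent.Y920.EP.efratP p F K hD⟩
      obtain ⟨Γ, hΓ, w, hw, σ, hσ, hσw⟩ := hD
      exact ⟨Γ, hΓ, w, fun τ => ⟨fun _ x => hw τ x, fun _ => trivial⟩, σ, trivial, hσ, hσw⟩
    · rintro f ⟨h6, h7⟩
      apply hc
      have h8 : c * f ^ p ∈ O.unitGroup := Pool.Agent.R675.TP.mem_unitGroup_of h6 h7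
      have h9 : f ^ p ∈ powers F p := ⟨f, rfl⟩
      have h10 := mul_mem (show c * f ^ p ∈ O.unitGroup ⊔ powers F p from
        Subgroup.mem_sup_left h8)
        (inv_mem (show f ^ p ∈ O.unitGroup ⊔ powers F p from Subgroup.mem_sup_right h9))
      rwa [mul_inv_cancel_right] at h10

/-- `H` is topologically finitely generated -/
def IsTopologicallyFG {G : Type} [Group G] [TopologicalSpace G] [IsTopologicalGroup G]
    (H : Subgroup G) : Prop :=
  ∃ S : Set G, S.Finite ∧ (Subgroup.closure S).topologicalClosure = H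

/-- `T` is the inertia group of the valuation ring `V` of `K`, and the decomposition group of `V` is
the whole Galois group -/
def IsInertiaGroup {F K : Type} [Field F] [Field K] [Algebra F K] (V : ValuationSubring K)
    (T : Subgroup (K ≃ₐ[F] K)) : Prop :=
  (∀ (σ : K ≃ₐ[F] K) (x : K), σ x ∈ V ↔ x ∈ V) ∧
    ∀ σ : K ≃ₐ[F] K, σ ∈ T ↔ ∀ x ∈ V, V.valuation (σ x - x) < 1

/-- the subgroup of the elements which fix all roots of unity of `p`-power order -/
def cyclotomicKernel (p : ℕ) (F K : Type) [Field F] [Field K] [Algebra F K] :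
    Subgroup (K ≃ₐ[F] K) where
  carrier := {σ | ∀ (n : ℕ) (x : K), x ^ p ^ n = 1 → σ x = x}
  mul_mem' := by
    intro σ τ hσ hτ n x hx
    rw [AlgEquiv.mul_apply, hτ n x hx, hσ n x hx]
  one_mem' := fun _ _ _ => rfl
  inv_mem' := by
    intro σ hσ n x hx
    have h := hσ n x hx
    conv_lhs => rw [← h]
    exact σ.symm_apply_apply x

lemma inertia_le_cyclotomic {p : ℕ} [Fact p.Prime] {F K : Type} [Field F] [Field K] [Algebra F K]
    {V : ValuationSubring K} (hV : Pool.Agent.Y920.EP.Pw p V)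
    {σ : K ≃ₐ[F] K} (hσ : ∀ x : K, x ∈ V → V.valuation (σ x - x) < 1) :
    σ ∈ cyclotomicKernel p F K := by
  have hp : p.Prime := Fact.out
  have key : ∀ (n : ℕ) (η : K), η ^ p ^ n = 1 → V.valuation (η - 1) < 1 → η = 1 := by
    intro n
    induction n with
    | zero => intro η h _; simpa using h
    | succ n ih =>
      intro η h1 h2
      have h3 : ∀ k : ℕ, V.valuation (η ^ k - 1) < 1 := by
        intro k
        induction k with
        | zero => simp
        | succ k ih => rw [pow_succ]; exact Pool.Agent.H403.Z.near_mul ih h2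
      have h4 : η ^ p = 1 := ih _ (by rw [← pow_mul, ← pow_succ']; exact h1) (h3 p)
      exact Pool.Agent.H403.Z.root_eq_one hp hV h4 h2
  intro n x hx
  have hv : V.valuation x = 1 := by
    have h1 : V.valuation x ^ p ^ n = 1 := by rw [← map_pow, hx, map_one]
    exact Pool.Agent.H403.Z.eq_one_of_pow (pow_ne_zero n hp.ne_zero) h1
  have hx0 : x ≠ 0 := by
    rintro rfl
    rw [map_zero] at hv
    exact zero_ne_one hv
  have h1 : σ x / x = 1 := by
    refine key n _ ?_ ?_
    · rw [div_pow, ← map_pow, hx, map_one, div_one]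
    · have h2 : σ x / x - 1 = (σ x - x) / x := by field_simp
      rw [h2, map_div₀, hv, div_one]
      exact hσ x ((V.valuation_le_one_iff _).1 hv.le)
  rwa [div_eq_one_iff_eq hx0] at h1

lemma fix_simple {F K : Type} [Field F] [Field K] [Algebra F K] (σ : K ≃ₐ[F] K) (x : K) :
    σ ∈ (IntermediateField.adjoin F {x}).fixingSubgroup ↔ σ x = x := by
  rw [IntermediateField.mem_fixingSubgroup_iff]
  constructor
  · exact fun h => h x (IntermediateField.mem_adjoin_simple_self F x)
  · intro h y hy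
    have h2 : IntermediateField.adjoin F {x} ≤ IntermediateField.fixedField (Subgroup.zpowers σ) := by
      rw [IntermediateField.adjoin_simple_le_iff, IntermediateField.mem_fixedField_iff]
      intro f hf
      have h3 : Subgroup.zpowers σ ≤ MulAction.stabilizer _ x := (Subgroup.zpowers_le).2 h
      exact h3 hf
    exact (IntermediateField.mem_fixedField_iff _ _).1 (h2 hy) σ (Subgroup.mem_zpowers σ)

lemma cyclotomic_normal (p : ℕ) (F K : Type) [Field F] [Field K] [Algebra F K] :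
    (cyclotomicKernel p F K).Normal := by
  refine ⟨fun σ hσ τ n x hx => ?_⟩
  have h1 : σ (τ⁻¹ x) = τ⁻¹ x := hσ n _ (by rw [← map_pow, hx, map_one])
  change τ (σ (τ⁻¹ x)) = x
  rw [h1]
  exact τ.apply_symm_apply x

lemma cyclotomic_closed (p : ℕ) (F K : Type) [Field F] [Field K] [Algebra F K]
    [Algebra.IsAlgebraic F K] : IsClosed (cyclotomicKernel p F K : Set (K ≃ₐ[F] K)) := by
  have h1 : (cyclotomicKernel p F K : Set (K ≃ₐ[F] K)) = ⋂ (n : ℕ) (x : K) (_ : x ^ p ^ n = 1),
      ((IntermediateField.adjoin F {x}).fixingSubgroup : Set (K ≃ₐ[F] K)) := by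
    ext σ
    simp only [Set.mem_iInter, SetLike.mem_coe, fix_simple]
    exact Iff.rfl
  rw [h1]
  refine isClosed_iInter fun n => isClosed_iInter fun x => isClosed_iInter fun _ => ?_
  have : FiniteDimensional F (IntermediateField.adjoin F {x}) :=
    IntermediateField.adjoin.finiteDimensional (Algebra.IsIntegral.isIntegral x)
  exact IntermediateField.fixingSubgroup_isClosed _

theorem result (p : ℕ) [Fact p.Prime] (F : Type) [Field F] (hζ : ∃ ζ : F, IsPrimitiveRoot ζ p)
    (K : IntermediateField F (AlgebraicClosure F)) (hK : IsMaximalPExtension p K) :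
    -- finitely generated closed subnormal subgroups
    (∀ N : Subgroup (↥K ≃ₐ[F] ↥K), N.IsSubnormal → IsClosed (N : Set (↥K ≃ₐ[F] ↥K)) →
      IsTopologicallyFG N → N ≠ ⊥ → N.index = 0 →
      ConclusionOfQ1 p K ∧
      ∃ (V : ValuationSubring K) (T : Subgroup (↥K ≃ₐ[F] ↥K)), IsInertiaGroup V T ∧
        (p : K)⁻¹ ∈ V ∧ IsCompatible p (V.comap (algebraMap F K)) ∧ T ≠ ⊥ ∧
        (∀ σ ∈ T, ∀ τ ∈ T, σ * τ = τ * σ) ∧ (N ≤ T ∨ (N ⊔ T).index ≠ 0)) ∧
    -- normal subgroups: the subgroup is abelian or the quotient is virtually abelian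
    (∀ N : Subgroup (↥K ≃ₐ[F] ↥K), N.Normal → IsClosed (N : Set (↥K ≃ₐ[F] ↥K)) →
      IsTopologicallyFG N → (∀ σ ∈ N, ∀ τ ∈ N, σ * τ = τ * σ) ∨
        ∃ H : Subgroup (↥K ≃ₐ[F] ↥K), N ≤ H ∧ H.index ≠ 0 ∧
          ∀ σ ∈ H, ∀ τ ∈ H, σ * τ * σ⁻¹ * τ⁻¹ ∈ N) ∧
    -- the cyclotomic extension
    ((cyclotomicKernel p F K).index = 0 → IsTopologicallyFG (cyclotomicKernel p F K) →
      ∀ σ ∈ cyclotomicKernel p F K, ∀ τ ∈ cyclotomicKernel p F K, σ * τ = τ * σ) := by
  have hprime : p.Prime := Fact.out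
  have hM : Pool.Agent.H403.W.MaxP p F K := by
    obtain ⟨ζ, hζ⟩ := hζ
    have hK' : K = Pool.Agent.H403.W.maxPExt p F := hK
    rw [hK']
    exact Pool.Agent.H403.W.maxPExt_maxP p F hprime hζ
  have h1 : ∀ N : Subgroup (↥K ≃ₐ[F] ↥K), N.IsSubnormal → IsClosed (N : Set (↥K ≃ₐ[F] ↥K)) →
      IsTopologicallyFG N → N ≠ ⊥ → N.index = 0 →
      ∃ (V : ValuationSubring K) (T : Subgroup (↥K ≃ₐ[F] ↥K)), IsInertiaGroup V T ∧
        Pool.Agent.Y920.EP.Pw p V ∧ IsCompatible p (V.comap (algebraMap F K)) ∧ T ≠ ⊥ ∧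
        (∀ σ ∈ T, ∀ τ ∈ T, σ * τ = τ * σ) ∧ (N ≤ T ∨ (N ⊔ T).index ≠ 0) := by
    intro N hs hcl hfg hne hidx
    obtain ⟨V, hinv, hV, hO, -, hT, hcomm, hN⟩ :=
      Pool.Agent.H403.Z.main_group hM hζ N hs hcl hidx hne hfg
    exact ⟨V, _, ⟨hinv, fun σ => Pool.Agent.H403.Z.resHom_eq_one hinv⟩, hV,
      ⟨hO.1.1, hO.1.2.2, hO.2⟩, hT, hcomm, hN⟩
  refine ⟨?_, ?_, ?_⟩
  · intro N hs hcl hfg hne hidx
    obtain ⟨V, T, hT, hV, hO, h2, h3, h4⟩ := h1 N hs hcl hfg hne hidx
    exact ⟨(galois_of_compatible p F hζ ⟨_, hO⟩ K hK).2, V, T, hT, hV.1, hO, h2, h3, h4⟩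
  · intro N hnor hcl hfg
    by_cases hne : N = ⊥
    · left
      subst hne
      intro σ hσ τ hτ
      rw [Subgroup.mem_bot] at hσ hτ
      rw [hσ, hτ]
    by_cases hidx : N.index = 0
    · obtain ⟨V, T, hT, hV, hO, h2, h3, h4⟩ := h1 N hnor.isSubnormal hcl hfg hne hidx
      rcases h4 with h4 | h4
      · left
        exact fun σ hσ τ hτ => h3 σ (h4 hσ) τ (h4 hτ)
      · right
        refine ⟨N ⊔ T, le_sup_left, h4, ?_⟩
        have h5 : ∀ σ ∈ N ⊔ T, ∃ τ ∈ T, QuotientGroup.mk' N σ = QuotientGroup.mk' N τ := by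
          intro σ hσ
          have h6 : QuotientGroup.mk' N σ ∈ (N ⊔ T).map (QuotientGroup.mk' N) := ⟨σ, hσ, rfl⟩
          rw [Subgroup.map_sup, QuotientGroup.map_mk'_self, bot_sup_eq] at h6
          obtain ⟨τ, hτ, hτσ⟩ := h6
          exact ⟨τ, hτ, hτσ.symm⟩
        intro σ hσ τ hτ
        obtain ⟨σ', hσ', e1⟩ := h5 σ hσ
        obtain ⟨τ', hτ', e2⟩ := h5 τ hτ
        rw [← QuotientGroup.ker_mk' N, MonoidHom.mem_ker, map_mul, map_mul, map_mul, map_inv,
          map_inv, e1, e2, ← map_mul, h3 σ' hσ' τ' hτ', map_mul, mul_inv_cancel_right,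
          mul_inv_cancel]
    · right
      refine ⟨N, le_rfl, hidx, fun σ hσ τ hτ => ?_⟩
      exact mul_mem (mul_mem (mul_mem hσ hτ) (inv_mem hσ)) (inv_mem hτ)
  · intro hidx hfg
    have hgal := hM.gal
    by_cases hne : cyclotomicKernel p F K = ⊥
    · intro σ hσ τ hτ
      rw [hne, Subgroup.mem_bot] at hσ hτ
      rw [hσ, hτ]
    · obtain ⟨V, T, hT, hV, hO, h2, h3, h4⟩ := h1 (cyclotomicKernel p F K)
        (cyclotomic_normal p F K).isSubnormal (cyclotomic_closed p F K) hfg hne hidx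
      have h5 : T ≤ cyclotomicKernel p F K :=
        fun σ hσ => inertia_le_cyclotomic hV ((hT.2 σ).1 hσ)
      rw [sup_eq_left.2 h5] at h4
      rcases h4 with h4 | h4
      · exact fun σ hσ τ hτ => h3 σ (h4 hσ) τ (h4 hτ)
      · exact absurd hidx h4

end Pool.Agent.Results.MP_600e55_nt.SubnormalSubgroups
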